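import Pool.Agent.H979.BK.Stm

/-! # Project BK, A1: the law after `m` moves -/

set_option autoImplicit false

open Filter Topology Finset Pool.Agent.H979.BK

namespace Pool.Agent.H111

section BKA1

variable {d n : ℕ}

theorem bk_move_mem (σ : Equiv.Perm (Fin d)) {A : Finset (Ball d n)} (u : Ball d n → Fin d)
    {b : Ball d n} (hb : b ∈ A) : move σ A u b = σ (u b) := if_pos hb

theorem bk_move_not (σ : Equiv.Perm (Fin d)) {A : Finset (Ball d n)} (u : Ball d n → Fin d)
    {b : Ball d n} (hb : ¬ b ∈ A) : move σ A u b = u b := if_neg hb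

/-- moving `k` balls of every urn preserves balancedness -/
theorem bk_move_bal {k : ℕ} {u : Ball d n → Fin d} (hu : Bal u) (σ : Equiv.Perm (Fin d))
    {A : Finset (Ball d n)} (hA : A ∈ sel k u) : Bal (move σ A u) := by
  have hA' : ∀ i, (A.filter fun b => u b = i).card = k := by
    unfold sel at hA
    rw [Finset.mem_filter] at hA
    exact hA.2
  intro i
  have h1 : ∀ S : Finset (Ball d n), (S.filter fun b => b ∈ A).card +
      (S.filter fun b => ¬ b ∈ A).card = S.card := fun S =>
    Finset.card_filter_add_card_filter_not (s := S) (fun b => b ∈ A)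
  have h2 := h1 (univ.filter fun b => move σ A u b = i)
  have h3 := h1 (univ.filter fun b => u b = i)
  have e1 : ((univ.filter fun b => move σ A u b = i).filter fun b => b ∈ A) =
      A.filter fun b => u b = σ.symm i := by
    ext b
    simp only [Finset.mem_filter, Finset.mem_univ, true_and]
    constructor
    · rintro ⟨hb, hbA⟩
      rw [bk_move_mem σ u hbA] at hb
      exact ⟨hbA, by rw [← hb, Equiv.symm_apply_apply]⟩
    · rintro ⟨hbA, hb⟩
      rw [bk_move_mem σ u hbA]
      exact ⟨by rw [hb, Equiv.apply_symm_apply], hbA⟩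
  have e2 : ((univ.filter fun b => move σ A u b = i).filter fun b => ¬ b ∈ A) =
      (univ.filter fun b => u b = i).filter fun b => ¬ b ∈ A := by
    ext b
    simp only [Finset.mem_filter, Finset.mem_univ, true_and]
    constructor
    · rintro ⟨hb, hbA⟩
      rw [bk_move_not σ u hbA] at hb
      exact ⟨hb, hbA⟩
    · rintro ⟨hb, hbA⟩
      rw [bk_move_not σ u hbA]
      exact ⟨hb, hbA⟩
  have e3 : ((univ.filter fun b => u b = i).filter fun b => b ∈ A) =
      A.filter fun b => u b = i := by
    ext b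
    simp only [Finset.mem_filter, Finset.mem_univ, true_and]
    exact and_comm
  rw [e1, e2, hA'] at h2
  rw [e3, hA', hu i] at h3
  rw [← h2, h3]

/-- there are sets with `k` balls of every urn -/
theorem bk_sel_nonempty {k : ℕ} (hk : k ≤ n) {u : Ball d n → Fin d} (hu : Bal u) :
    (sel k u).Nonempty := by
  have h1 : ∀ i, ∃ t ⊆ univ.filter (fun b : Ball d n => u b = i), t.card = k := fun i =>
    Finset.exists_subset_card_eq (by rw [hu i]; exact hk)
  choose t ht htk using h1
  refine ⟨univ.filter fun b => b ∈ t (u b), ?_⟩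
  unfold sel
  rw [Finset.mem_filter]
  refine ⟨Finset.mem_univ _, fun i => ?_⟩
  rw [← htk i]
  congr 1
  ext b
  simp only [Finset.mem_filter, Finset.mem_univ, true_and]
  constructor
  · rintro ⟨hb, rfl⟩
    exact hb
  · intro hb
    have h2 : u b = i := (Finset.mem_filter.1 (ht i hb)).2
    exact ⟨by rw [h2]; exact hb, h2⟩

theorem bk_T_nonneg {μ : Equiv.Perm (Fin d) → ℝ} (hμ : IsProb μ) (k : ℕ)
    {f : (Ball d n → Fin d) → ℝ} (hf : ∀ u, 0 ≤ f u) (u : Ball d n → Fin d) : 0 ≤ T μ k f u :=
  Finset.sum_nonneg fun σ _ => mul_nonneg (hμ.1 σ)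
    (div_nonneg (Finset.sum_nonneg fun _ _ => hf _) (Nat.cast_nonneg _))

/-- `T` is linear -/
theorem bk_T_sum {μ : Equiv.Perm (Fin d) → ℝ} (k : ℕ) (f : (Ball d n → Fin d) → ℝ)
    (u : Ball d n → Fin d) :
    T μ k f u = ∑ v, f v * T μ k (fun w => if w = v then 1 else 0) u := by
  unfold T Ts
  simp only [Finset.mul_sum]
  rw [Finset.sum_comm]
  refine Finset.sum_congr rfl fun σ _ => ?_
  have h1 : ∀ v : Ball d n → Fin d, f v * (μ σ * ((∑ A ∈ sel k u,
      (if move σ A u = v then (1 : ℝ) else 0)) / ((sel k u).card : ℝ))) =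
      μ σ * ((∑ A ∈ sel k u, (if move σ A u = v then f v else 0)) / ((sel k u).card : ℝ)) := by
    intro v
    have h2 : ∑ A ∈ sel k u, (if move σ A u = v then f v else 0) =
        f v * ∑ A ∈ sel k u, (if move σ A u = v then (1 : ℝ) else 0) := by
      rw [Finset.mul_sum]
      refine Finset.sum_congr rfl fun A _ => ?_
      rw [mul_ite, mul_one, mul_zero]
    rw [h2]
    ring
  rw [Finset.sum_congr rfl fun v _ => h1 v, ← Finset.mul_sum, ← Finset.sum_div,
    Finset.sum_comm]
  have h3 : ∀ A ∈ sel k u, f (move σ A u) =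
      ∑ v : Ball d n → Fin d, (if move σ A u = v then f v else 0) := by
    intro A _
    rw [Finset.sum_ite_eq]
    simp
  rw [Finset.sum_congr rfl h3]

/-- `T 1 = 1` at balanced placements -/
theorem bk_T_one {μ : Equiv.Perm (Fin d) → ℝ} (hμ : IsProb μ) {k : ℕ} (hk : k ≤ n)
    {u : Ball d n → Fin d} (hu : Bal u) : T μ k (fun _ => 1) u = 1 := by
  have h1 : ((sel k u).card : ℝ) ≠ 0 := by
    have := Finset.card_pos.2 (bk_sel_nonempty hk hu)
    positivity
  have h2 : ∀ σ : Equiv.Perm (Fin d), μ σ * Ts k σ (fun _ => (1 : ℝ)) u = μ σ := by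
    intro σ
    unfold Ts
    rw [Finset.sum_const, nsmul_eq_mul, mul_one, div_self h1, mul_one]
  unfold T
  rw [Finset.sum_congr rfl fun σ _ => h2 σ]
  exact hμ.2

/-- from balanced placements only balanced placements are reached -/
theorem bk_T_zero {μ : Equiv.Perm (Fin d) → ℝ} {k : ℕ} {u v : Ball d n → Fin d} (hu : Bal u)
    (hv : ¬ Bal v) : T μ k (fun w => if w = v then 1 else 0) u = 0 := by
  unfold T Ts
  refine Finset.sum_eq_zero fun σ _ => ?_
  have h1 : ∑ A ∈ sel k u, (if move σ A u = v then (1 : ℝ) else 0) = 0 :=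
    Finset.sum_eq_zero fun A hA => by
      rw [if_neg]
      intro h
      exact hv (h ▸ bk_move_bal hu σ hA)
  rw [h1, zero_div, mul_zero]

theorem bk_law {μ : Equiv.Perm (Fin d) → ℝ} (hμ : IsProb μ) {k : ℕ} (hk : k ≤ n)
    {u0 : Ball d n → Fin d} (hu0 : Bal u0) (m : ℕ) :
    ∃ p : (Ball d n → Fin d) → ℝ, (∀ u, 0 ≤ p u) ∧ (∑ u, p u = 1) ∧ (∀ u, ¬ Bal u → p u = 0) ∧
      ∀ f : (Ball d n → Fin d) → ℝ, ((T μ k)^[m] f) u0 = ∑ u, p u * f u := by
  induction m with
  | zero =>
    refine ⟨fun u => if u = u0 then 1 else 0, ?_, ?_, ?_, ?_⟩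
    · intro u
      show (0 : ℝ) ≤ if u = u0 then 1 else 0
      split_ifs
      · exact zero_le_one
      · exact le_refl _
    · rw [Finset.sum_ite_eq']
      simp
    · intro u hu
      have h : ¬ u = u0 := fun h => hu (by rw [h]; exact hu0)
      exact if_neg h
    · intro f
      simp
  | succ m ih =>
    obtain ⟨p, hp0, hp1, hpB, hpf⟩ := ih
    refine ⟨fun v => ∑ u, p u * T μ k (fun w => if w = v then 1 else 0) u, ?_, ?_, ?_, ?_⟩
    · intro v
      refine Finset.sum_nonneg fun u _ => mul_nonneg (hp0 u) (bk_T_nonneg hμ k (fun w => ?_) u)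
      show (0 : ℝ) ≤ if w = v then 1 else 0
      split_ifs
      · exact zero_le_one
      · exact le_refl _
    · rw [Finset.sum_comm]
      have h1 : ∀ u : Ball d n → Fin d,
          ∑ v, p u * T μ k (fun w => if w = v then 1 else 0) u = p u := by
        intro u
        rw [← Finset.mul_sum]
        by_cases hu : Bal u
        · have h2 := bk_T_sum (μ := μ) k (fun _ => 1) u
          rw [bk_T_one hμ hk hu] at h2
          simp only [one_mul] at h2
          rw [← h2, mul_one]
        · rw [hpB u hu, zero_mul]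
      rw [Finset.sum_congr rfl fun u _ => h1 u]
      exact hp1
    · intro v hv
      refine Finset.sum_eq_zero fun u _ => ?_
      by_cases hu : Bal u
      · rw [bk_T_zero hu hv, mul_zero]
      · rw [hpB u hu, zero_mul]
    · intro f
      rw [Function.iterate_succ_apply, hpf]
      have h1 : ∀ u : Ball d n → Fin d, p u * T μ k f u =
          ∑ v, p u * T μ k (fun w => if w = v then 1 else 0) u * f v := by
        intro u
        rw [bk_T_sum k f u, Finset.mul_sum]
        exact Finset.sum_congr rfl fun v _ => by ring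
      rw [Finset.sum_congr rfl fun u _ => h1 u, Finset.sum_comm]
      exact Finset.sum_congr rfl fun v _ => by rw [Finset.sum_mul]

/-- the start is balanced -/
theorem bk_start : Bal (Prod.fst : Ball d n → Fin d) := by
  intro i
  have h1 : (univ.filter fun b : Ball d n => b.1 = i) = ({i} : Finset (Fin d)) ×ˢ univ := by
    ext ⟨b1, b2⟩
    simp [eq_comm]
  rw [h1, Finset.card_product, Finset.card_singleton, Finset.card_univ, Fintype.card_fin, one_mul]

end BKA1

theorem bk_a1 : S_A1 := by
  intro d n k μ hμ hk m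
  exact bk_law hμ hk bk_start m

end Pool.Agent.H111
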