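import Pool.Agent.H194.Cube.Defs

set_option autoImplicit false

namespace Pool.Agent.H111.Cube

open MeasureTheory Set Filter Topology ProbabilityTheory
open scoped ContDiff ENNReal
open Pool.Agent.H194.Cube

variable {n : ℕ}

theorem phi_T (GF : GaussFacts) {y : ℝ} (h0 : 0 < y) (h1 : y < 1) :
    Phi (Function.invFun Phi y) = y := by
  obtain ⟨t, ht⟩ := GF.surj y h0 h1
  rw [← ht, GF.inv_left]

theorem heat_sum (HA : HeatA) (σ : ℝ) (x : Fin n → ℝ) {ι : Type} (s : Finset ι)
    (k : ι → (Fin n → ℝ) → ℝ) (hc : ∀ i, Continuous (k i)) (hp : ∀ i, Per (k i)) :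
    heat σ (fun y => ∑ i ∈ s, k i y) x = ∑ i ∈ s, heat σ (k i) x := by
  classical
  induction s using Finset.induction_on with
  | empty => simpa using HA.const n σ 0 x
  | insert a s ha ih =>
    have e : (fun y => ∑ i ∈ insert a s, k i y) = fun y => k a y + ∑ i ∈ s, k i y := by
      funext y
      rw [Finset.sum_insert ha]
    rw [e, HA.add n σ (k a) (fun y => ∑ i ∈ s, k i y) x (hc a) (hp a)
      (continuous_finsetSum _ fun i _ => hc i)
      (fun y j => Finset.sum_congr rfl fun i _ => hp i y j), ih, Finset.sum_insert ha]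

theorem contDiff_D {g : (Fin n → ℝ) → ℝ} (hg : ContDiff ℝ ∞ g) (i : Fin n) :
    ContDiff ℝ ∞ (D g i) := by
  unfold D
  have h1 : ContDiff ℝ ∞ (fderiv ℝ g) := hg.fderiv_right (by simp)
  exact h1.clm_apply contDiff_const

/-- the value at time zero -/
theorem start (GF : GaussFacts) {lam P δ : ℝ} {E : Set (Fin n → ℝ)} {g : (Fin n → ℝ) → ℝ}
    (hδ : 0 < δ) (N : NearMin n lam P δ E g) :
    ∫ x in Icc (0 : Fin n → ℝ) 1, Iga (g x) ≤ √δ := by
  have hsδ : 0 < √δ := Real.sqrt_pos.2 hδ
  have hgc : Continuous g := N.smooth.continuous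
  have hvol : volume (Icc (0 : Fin n → ℝ) 1) ≠ ⊤ := by
    rw [Real.volume_Icc_pi]
    simp
  have hvol1 : (volume (Icc (0 : Fin n → ℝ) 1)).toReal = 1 := by
    rw [Real.volume_Icc_pi]
    simp
  set u : (Fin n → ℝ) → ℝ := fun x => |g x - E.indicator (fun _ => (1 : ℝ)) x| with hu
  have hint : IntegrableOn u (Icc (0 : Fin n → ℝ) 1) := by
    refine Integrable.abs ?_
    refine Integrable.sub (hgc.continuousOn.integrableOn_compact isCompact_Icc) ?_
    have : IntegrableOn (fun _ : Fin n → ℝ => (1 : ℝ)) (Icc (0 : Fin n → ℝ) 1) :=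
      integrableOn_const hvol
    exact Integrable.indicator this N.meas
  have hpt : ∀ x, Iga (g x) ≤ (u x / √δ + √δ) / 2 := by
    intro x
    have h1 : Iga (g x) ≤ √(u x) := by
      by_cases hx : x ∈ E
      · have : u x = 1 - g x := by
          simp only [hu, Set.indicator_of_mem hx]
          rw [abs_sub_comm, abs_of_nonneg (by linarith [(N.mem x).2])]
        rw [this, ← GF.iga_symm]
        exact GF.iga_sqrt _ (by linarith [(N.mem x).2])
      · have : u x = g x := by
          simp only [hu, Set.indicator_of_notMem hx, sub_zero]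
          exact abs_of_nonneg (N.mem x).1
        rw [this]
        exact GF.iga_sqrt _ (N.mem x).1
    have h2 : 0 ≤ u x := abs_nonneg _
    have h3 : √(u x) ^ 2 = u x := Real.sq_sqrt h2
    have h4 : 0 ≤ (√(u x) - √δ) ^ 2 := sq_nonneg _
    have h5 : √(u x) ≤ (u x / √δ + √δ) / 2 := by
      rw [div_add' _ _ _ hsδ.ne', div_div, le_div_iff₀ (by positivity)]
      nlinarith
    exact h1.trans h5
  calc ∫ x in Icc (0 : Fin n → ℝ) 1, Iga (g x)
      ≤ ∫ x in Icc (0 : Fin n → ℝ) 1, (u x / √δ + √δ) / 2 := by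
        refine setIntegral_mono ?_ ?_ hpt
        · exact (GF.iga_cont.comp hgc).continuousOn.integrableOn_compact isCompact_Icc
        · exact ((hint.div_const _).add (integrableOn_const hvol)).div_const _
    _ = ((∫ x in Icc (0 : Fin n → ℝ) 1, u x) / √δ + √δ) / 2 := by
        rw [integral_div, integral_add (hint.div_const _) (integrableOn_const hvol), integral_div,
          setIntegral_const, measureReal_def, hvol1, one_smul]
    _ ≤ (δ / √δ + √δ) / 2 := by
        have := N.l1
        gcongr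
    _ = √δ := by
        rw [Real.div_sqrt]
        ring


theorem smooth_one {g : (Fin n → ℝ) → ℝ} (hg : ContDiff ℝ ∞ g) : ContDiff ℝ 1 g :=
  hg.of_le (by exact_mod_cast le_top)

/-- for positive times the values are strictly between `0` and `1` -/
theorem range (HA : HeatA) {g : (Fin n → ℝ) → ℝ} (hc : Continuous g) (hp : Per g)
    (hm : ∀ x, 0 ≤ g x ∧ g x ≤ 1) (h0 : ∃ y, 0 < g y) (h1 : ∃ y, g y < 1) {s : ℝ} (hs : 0 < s)
    (x : Fin n → ℝ) : heat s g x ∈ Ioo (0 : ℝ) 1 := by
  refine ⟨HA.pos n s g x hs hc hp (fun y => (hm y).1) h0, ?_⟩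
  have hc' : Continuous (fun y => (-1 : ℝ) * g y) := continuous_const.mul hc
  have hp' : Per (fun y => (-1 : ℝ) * g y) := fun y i => by
    show (-1 : ℝ) * g _ = -1 * g y
    rw [hp y i]
  have h2 := HA.pos n s (fun y => 1 + (-1 : ℝ) * g y) x hs (continuous_const.add hc')
    (fun y i => by
      show 1 + (-1 : ℝ) * g _ = 1 + -1 * g y
      rw [hp y i]) (fun y => by linarith [(hm y).2])
    (by obtain ⟨y, hy⟩ := h1; exact ⟨y, by linarith⟩)
  rw [HA.add n s (fun _ => 1) (fun y => (-1 : ℝ) * g y) x continuous_const (fun _ _ => rfl) hc' hp',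
    HA.const, HA.smul] at h2
  linarith

/-- Laplacian -/
noncomputable def Lap (g : (Fin n → ℝ) → ℝ) (y : Fin n → ℝ) : ℝ := ∑ i, D (D g i) i y

theorem lap_contDiff {g : (Fin n → ℝ) → ℝ} (hg : ContDiff ℝ ∞ g) : ContDiff ℝ ∞ (Lap g) := by
  unfold Lap
  exact ContDiff.sum fun i _ => contDiff_D (contDiff_D hg i) i

theorem lap_per (SF : SymFacts) {g : (Fin n → ℝ) → ℝ} (hg : Per g) : Per (Lap g) := by
  intro x i
  unfold Lap
  exact Finset.sum_congr rfl fun j _ => SF.per n _ j (SF.per n g j hg) x i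

theorem heat_lap (HA : HeatA) (HB : HeatB) (SF : SymFacts) {g : (Fin n → ℝ) → ℝ}
    (hg : ContDiff ℝ ∞ g) (hp : Per g) (s : ℝ) (x : Fin n → ℝ) :
    heat s (Lap g) x = Lap (heat s g) x := by
  have h1 : heat s (Lap g) x = ∑ i, heat s (D (D g i) i) x := by
    unfold Lap
    exact heat_sum HA s x Finset.univ (fun i => D (D g i) i)
      (fun i => (contDiff_D (contDiff_D hg i) i).continuous)
      (fun i => SF.per n _ i (SF.per n g i hp))
  rw [h1]
  unfold Lap
  refine Finset.sum_congr rfl fun i _ => ?_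
  have h2 : D (heat s g) i = heat s (D g i) := by
    funext y
    exact HB.comm n s g i y (smooth_one hg) hp
  rw [h2, HB.comm n s (D g i) i x (smooth_one (contDiff_D hg i)) (SF.per n g i hp)]

/-- pointwise derivative in time -/
theorem time_deriv (GF : GaussFacts) (HC : HeatC) {g : (Fin n → ℝ) → ℝ}
    (hg : ContDiff ℝ ∞ g) (hp : Per g) {s : ℝ} (x : Fin n → ℝ) (hr : heat s g x ∈ Ioo (0 : ℝ) 1) :
    HasDerivAt (fun t => Iga (heat t g x))
      (-(Function.invFun Phi (heat s g x)) * (s * heat s (Lap g) x)) s := by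
  have h1 := GF.iga_deriv (Function.invFun Phi (heat s g x))
  rw [phi_T GF hr.1 hr.2] at h1
  have h2 := HC.time n s g x hg hp
  exact h1.comp s h2

theorem vol_ne : volume (Icc (0 : Fin n → ℝ) 1) ≠ ⊤ := by
  rw [Real.volume_Icc_pi]
  simp

/-- derivative of the integral -/
theorem Y_deriv (GF : GaussFacts) (HA : HeatA) (HC : HeatC) (SF : SymFacts)
    {g : (Fin n → ℝ) → ℝ} (hg : ContDiff ℝ ∞ g) (hp : Per g) (hm : ∀ x, 0 ≤ g x ∧ g x ≤ 1)
    (h0 : ∃ y, 0 < g y) (h1 : ∃ y, g y < 1) {s : ℝ} (hs : 0 < s) :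
    HasDerivAt (fun t => ∫ x in Icc (0 : Fin n → ℝ) 1, Iga (heat t g x))
      (∫ x in Icc (0 : Fin n → ℝ) 1,
        -(Function.invFun Phi (heat s g x)) * (s * heat s (Lap g) x)) s := by
  have hcg : Continuous (fun p : ℝ × (Fin n → ℝ) => heat p.1 g p.2) := HA.cont n g hg.continuous hp
  have hcl : Continuous (fun p : ℝ × (Fin n → ℝ) => heat p.1 (Lap g) p.2) :=
    HA.cont n (Lap g) (lap_contDiff hg).continuous (lap_per SF hp)
  have hK : IsCompact (Icc (s / 2) (2 * s) ×ˢ Icc (0 : Fin n → ℝ) 1) :=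
    isCompact_Icc.prod isCompact_Icc
  have hTc : ContinuousOn (Function.invFun Phi) (Ioo (0 : ℝ) 1) := GF.inv_smooth.continuousOn
  have hcont : ContinuousOn (fun p : ℝ × (Fin n → ℝ) =>
      -(Function.invFun Phi (heat p.1 g p.2)) * (p.1 * heat p.1 (Lap g) p.2))
      (Ioi 0 ×ˢ univ) := by
    refine ContinuousOn.mul (ContinuousOn.neg ?_) ?_
    · exact hTc.comp hcg.continuousOn fun p hp' => range HA hg.continuous hp hm h0 h1 hp'.1 p.2
    · exact (continuous_fst.mul hcl).continuousOn
  have hsub : (Icc (s / 2) (2 * s) ×ˢ Icc (0 : Fin n → ℝ) 1) ⊆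
      ((Ioi 0 ×ˢ univ) : Set (ℝ × (Fin n → ℝ))) := by
    rintro ⟨a, b⟩ ⟨ha, -⟩
    refine ⟨?_, mem_univ _⟩
    have := ha.1
    simp only [mem_Ioi]
    simp only at this
    linarith
  obtain ⟨M, hM⟩ := hK.exists_bound_of_continuousOn (hcont.mono hsub)
  have hnb : Ioo (s / 2) (2 * s) ∈ 𝓝 s := Ioo_mem_nhds (by linarith) (by linarith)
  have key := hasDerivAt_integral_of_dominated_loc_of_deriv_le
    (μ := volume.restrict (Icc (0 : Fin n → ℝ) 1))
    (F := fun t x => Iga (heat t g x))
    (F' := fun t x => -(Function.invFun Phi (heat t g x)) * (t * heat t (Lap g) x))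
    (x₀ := s) (s := Ioo (s / 2) (2 * s)) (bound := fun _ => M) hnb ?_ ?_ ?_ ?_ ?_ ?_
  · exact key.2
  · refine Eventually.of_forall fun t => ?_
    have : Continuous (fun x => Iga (heat t g x)) :=
      GF.iga_cont.comp (hcg.comp (continuous_const.prodMk continuous_id))
    exact this.aestronglyMeasurable
  · have : Continuous (fun x => Iga (heat s g x)) :=
      GF.iga_cont.comp (hcg.comp (continuous_const.prodMk continuous_id))
    exact this.continuousOn.integrableOn_compact isCompact_Icc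
  · have : Continuous (fun x => -(Function.invFun Phi (heat s g x)) * (s * heat s (Lap g) x)) := by
      have h := hcont.comp_continuous (f := fun x : Fin n → ℝ => (s, x))
        (continuous_const.prodMk continuous_id) (fun x => ⟨hs, mem_univ _⟩)
      exact h
    exact this.aestronglyMeasurable
  · rw [ae_restrict_iff' measurableSet_Icc]
    refine Eventually.of_forall fun x hx t ht => ?_
    exact hM (t, x) ⟨⟨ht.1.le, ht.2.le⟩, hx⟩
  · exact integrableOn_const vol_ne
  · refine Eventually.of_forall fun x t ht => ?_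
    have ht0 : 0 < t := by linarith [ht.1]
    exact time_deriv GF HC hg hp x (range HA hg.continuous hp hm h0 h1 ht0 x)


theorem D_mul {a b : (Fin n → ℝ) → ℝ} {x : Fin n → ℝ} (ha : DifferentiableAt ℝ a x)
    (hb : DifferentiableAt ℝ b x) (i : Fin n) :
    D (fun y => a y * b y) i x = a x * D b i x + D a i x * b x := by
  unfold D
  rw [fderiv_fun_mul ha hb]
  simp only [add_apply, smul_apply, smul_eq_mul]
  ring

theorem D_comp {T : ℝ → ℝ} {T' : ℝ} {a : (Fin n → ℝ) → ℝ} {x : Fin n → ℝ}
    (hT : HasDerivAt T T' (a x)) (ha : DifferentiableAt ℝ a x) (i : Fin n) :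
    D (fun y => T (a y)) i x = T' * D a i x := by
  unfold D
  have h := hT.comp_hasFDerivAt x ha.hasFDerivAt
  have h2 : fderiv ℝ (fun y => T (a y)) x = T' • fderiv ℝ a x := h.fderiv
  rw [h2]
  simp

/-- integration by parts -/
theorem ibp (GF : GaussFacts) (BF : BoxFacts) (SF : SymFacts) {f : (Fin n → ℝ) → ℝ}
    (hf : ContDiff ℝ ∞ f) (hS : Sym f) (hr : ∀ x, f x ∈ Ioo (0 : ℝ) 1) (i : Fin n) :
    ∫ x in Icc (0 : Fin n → ℝ) 1, (D f i x ^ 2 / Iga (f x) +
      Function.invFun Phi (f x) * D (D f i) i x) = 0 := by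
  set T := Function.invFun Phi with hT
  have hTf : ContDiff ℝ ∞ (fun x => T (f x)) :=
    GF.inv_smooth.comp_contDiff hf fun x => hr x
  have hDf : ContDiff ℝ ∞ (D f i) := contDiff_D hf i
  set k : (Fin n → ℝ) → ℝ := fun x => T (f x) * D f i x with hk
  have hkc : ContDiff ℝ ∞ k := hTf.mul hDf
  have hkD : ∀ x, D k i x = D f i x ^ 2 / Iga (f x) + T (f x) * D (D f i) i x := by
    intro x
    have e1 : D k i x = T (f x) * D (D f i) i x + D (fun y => T (f y)) i x * D f i x :=
      D_mul (hTf.contDiffAt.differentiableAt (by simp)) (hDf.contDiffAt.differentiableAt (by simp)) i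
    have e2 : D (fun y => T (f y)) i x = 1 / phi (T (f x)) * D f i x := by
      refine D_comp ?_ (hf.contDiffAt.differentiableAt (by simp)) i
      have := GF.inv_deriv (T (f x))
      rwa [phi_T GF (hr x).1 (hr x).2] at this
    have e3 : Iga (f x) = phi (T (f x)) := by
      have := GF.iga (T (f x))
      rwa [phi_T GF (hr x).1 (hr x).2] at this
    rw [e1, e2, e3]
    ring
  have hkper : Per k := by
    intro x j
    simp only [hk]
    rw [hS.1 x j, SF.per n f i hS.1 x j]
  have hz : ∫ x in Icc (-1 : Fin n → ℝ) 1, D k i x = 0 := BF.div n k i (smooth_one hkc) hkper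
  have hev : ∀ j, Evn (D k i) j := by
    intro j
    by_cases hj : j = i
    · subst hj
      refine SF.odd_same n k j (smooth_one hkc) ?_
      intro x
      simp only [hk]
      rw [hS.2 j x, SF.evn_same n f j (smooth_one hf) (hS.2 j) x]
      ring
    · refine SF.evn_diff n k j i hj (smooth_one hkc) ?_
      intro x
      simp only [hk]
      rw [hS.2 j x, SF.evn_diff n f j i hj (smooth_one hf) (hS.2 j) x]
  have hh := BF.half n (D k i) (contDiff_D hkc i).continuous hev
  rw [hz] at hh
  have h2 : ∫ x in Icc (0 : Fin n → ℝ) 1, D k i x = 0 := by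
    have h2n : (2 : ℝ) ^ n ≠ 0 := by positivity
    rcases mul_eq_zero.1 hh.symm with h | h
    · exact absurd h h2n
    · exact h
  rw [← h2]
  exact integral_congr_ae (Eventually.of_forall fun x => (hkD x).symm)

/-- the derivative is at most the total variation -/
theorem deriv_le (GF : GaussFacts) (HA : HeatA) (HB : HeatB) (BF : BoxFacts) (SF : SymFacts)
    (hgr : S_grad) (hd : S_dec)
    {g : (Fin n → ℝ) → ℝ} (hg : ContDiff ℝ ∞ g) (hS : Sym g) (hm : ∀ x, 0 ≤ g x ∧ g x ≤ 1)
    (h0 : ∃ y, 0 < g y) (h1 : ∃ y, g y < 1) {s : ℝ} (hs : 0 < s) :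
    ∫ x in Icc (0 : Fin n → ℝ) 1,
        -(Function.invFun Phi (heat s g x)) * (s * heat s (Lap g) x) ≤ TV g := by
  set T := Function.invFun Phi with hT
  set f := heat s g with hf'
  have hf : ContDiff ℝ ∞ f := HB.smooth n s g hg hS.1
  have hfS : Sym f := ⟨HA.per n s g hS.1, fun i => HA.evn n s g i (hS.2 i)⟩
  have hr : ∀ x, f x ∈ Ioo (0 : ℝ) 1 := fun x => range HA hg.continuous hS.1 hm h0 h1 hs x
  have hTf : ContDiff ℝ ∞ (fun x => T (f x)) :=
    GF.inv_smooth.comp_contDiff hf fun x => hr x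
  have hIf : Continuous (fun x => Iga (f x)) := GF.iga_cont.comp hf.continuous
  have hIpos : ∀ x, 0 < Iga (f x) := fun x => GF.iga_pos _ (hr x).1 (hr x).2
  have hsum : ∫ x in Icc (0 : Fin n → ℝ) 1, ∑ i, (D f i x ^ 2 / Iga (f x) +
      T (f x) * D (D f i) i x) = 0 := by
    rw [integral_finsetSum]
    · exact Finset.sum_eq_zero fun i _ => ibp GF BF SF hf hfS hr i
    · intro i _
      have hc : Continuous (fun x => D f i x ^ 2 / Iga (f x) + T (f x) * D (D f i) i x) := by
        refine ((((contDiff_D hf i).continuous).pow 2).div hIf fun x => (hIpos x).ne').add ?_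
        exact hTf.continuous.mul (contDiff_D (contDiff_D hf i) i).continuous
      exact hc.continuousOn.integrableOn_compact isCompact_Icc
  have hgn : ∀ x, gn f x ^ 2 = ∑ i, D f i x ^ 2 := fun x => by
    unfold gn
    exact Real.sq_sqrt (Finset.sum_nonneg fun i _ => sq_nonneg _)
  have hgn0 : ∀ x, 0 ≤ gn f x := fun x => Real.sqrt_nonneg _
  have hgnc : Continuous (gn f) := by
    unfold gn
    exact (continuous_finsetSum _ fun i _ => ((contDiff_D hf i).continuous).pow 2).sqrt
  have hpt : ∀ x, ∑ i, (D f i x ^ 2 / Iga (f x) + T (f x) * D (D f i) i x) =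
      gn f x ^ 2 / Iga (f x) + T (f x) * Lap f x := by
    intro x
    rw [Finset.sum_add_distrib, ← Finset.sum_div, ← Finset.mul_sum, hgn]
    rfl
  have hlapc : Continuous (Lap f) := (lap_contDiff hf).continuous
  have c1 : Continuous (fun x => gn f x ^ 2 / Iga (f x)) :=
    (hgnc.pow 2).div hIf fun x => (hIpos x).ne'
  have c2 : Continuous (fun x => T (f x) * Lap f x) := hTf.continuous.mul hlapc
  have hA : ∫ x in Icc (0 : Fin n → ℝ) 1, gn f x ^ 2 / Iga (f x) =
      - ∫ x in Icc (0 : Fin n → ℝ) 1, T (f x) * Lap f x := by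
    have : ∫ x in Icc (0 : Fin n → ℝ) 1, (gn f x ^ 2 / Iga (f x) + T (f x) * Lap f x) = 0 := by
      rw [← hsum]
      exact integral_congr_ae (Eventually.of_forall fun x => (hpt x).symm)
    rw [integral_add (c1.continuousOn.integrableOn_compact isCompact_Icc)
      (c2.continuousOn.integrableOn_compact isCompact_Icc)] at this
    linarith
  have hB : ∫ x in Icc (0 : Fin n → ℝ) 1, -(T (f x)) * (s * heat s (Lap g) x) =
      s * ∫ x in Icc (0 : Fin n → ℝ) 1, gn f x ^ 2 / Iga (f x) := by
    rw [hA, ← integral_neg, ← integral_const_mul]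
    refine integral_congr_ae (Eventually.of_forall fun x => ?_)
    show -(T (f x)) * (s * heat s (Lap g) x) = s * -(T (f x) * Lap f x)
    rw [heat_lap HA HB SF hg hS.1]
    ring
  rw [hB, ← integral_const_mul]
  calc ∫ x in Icc (0 : Fin n → ℝ) 1, s * (gn f x ^ 2 / Iga (f x))
      ≤ ∫ x in Icc (0 : Fin n → ℝ) 1, gn f x := by
        refine setIntegral_mono ?_ ?_ ?_
        · exact (continuous_const.mul c1).continuousOn.integrableOn_compact isCompact_Icc
        · exact hgnc.continuousOn.integrableOn_compact isCompact_Icc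
        · intro x
          have h := hgr n s g x hs (smooth_one hg) hS.1 hm (hr x).1 (hr x).2
          show s * (gn f x ^ 2 / Iga (f x)) ≤ gn f x
          rw [mul_div_assoc', div_le_iff₀ (hIpos x)]
          have := mul_le_mul_of_nonneg_left h (hgn0 x)
          nlinarith
    _ = TV f := rfl
    _ ≤ TV g := hd n s g (smooth_one hg) hS

/-- `S_Y` -/
theorem sY (HA : HeatA) (HB : HeatB) (HC : HeatC) (BF : BoxFacts) (SF : SymFacts)
    (GF : GaussFacts) (hgr : S_grad) (hd : S_dec) : S_Y := by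
  intro n lam P δ σ E g _ hσ hδ N
  have hTV : 0 ≤ TV g := integral_nonneg fun x => Real.sqrt_nonneg _
  by_cases h0 : ∃ y, 0 < g y
  swap
  · have hg0 : g = fun _ => 0 := by
      funext y
      by_contra h
      exact h0 ⟨y, lt_of_le_of_ne (N.mem y).1 (Ne.symm h)⟩
    have : ∀ x, Iga (heat σ g x) = 0 := by
      intro x
      rw [hg0, HA.const]
      unfold Iga
      simp
    simp only [this, integral_zero]
    positivity
  by_cases h1 : ∃ y, g y < 1
  swap
  · have hg1 : g = fun _ => 1 := by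
      funext y
      by_contra h
      exact h1 ⟨y, lt_of_le_of_ne (N.mem y).2 h⟩
    have : ∀ x, Iga (heat σ g x) = 0 := by
      intro x
      rw [hg1, HA.const]
      unfold Iga
      simp
    simp only [this, integral_zero]
    positivity
  set Y : ℝ → ℝ := fun t => ∫ x in Icc (0 : Fin n → ℝ) 1, Iga (heat t g x) with hY
  have hcg : Continuous (fun p : ℝ × (Fin n → ℝ) => heat p.1 g p.2) :=
    HA.cont n g N.smooth.continuous N.sym.1
  have hYc : Continuous Y := by
    refine continuous_parametric_integral_of_continuous ?_ isCompact_Icc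
    exact GF.iga_cont.comp hcg
  have hder : ∀ s : ℝ, 0 < s → HasDerivAt Y (∫ x in Icc (0 : Fin n → ℝ) 1,
      -(Function.invFun Phi (heat s g x)) * (s * heat s (Lap g) x)) s := fun s hs =>
    Y_deriv GF HA HC SF N.smooth N.sym.1 N.mem h0 h1 hs
  have hkey := Convex.image_sub_le_mul_sub_of_deriv_le (convex_Icc (0 : ℝ) σ) (f := Y)
    hYc.continuousOn (C := TV g) ?_ ?_ 0 ⟨le_rfl, hσ.le⟩ σ ⟨hσ.le, le_rfl⟩ hσ.le
  · have hY0 : Y 0 ≤ √δ := by
      have : Y 0 = ∫ x in Icc (0 : Fin n → ℝ) 1, Iga (g x) := by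
        simp only [hY]
        refine integral_congr_ae (Eventually.of_forall fun x => ?_)
        show Iga (heat 0 g x) = Iga (g x)
        rw [HA.zero]
      rw [this]
      exact start GF hδ N
    have : Y σ ≤ √δ + σ * TV g := by nlinarith
    exact this
  · rw [interior_Icc]
    intro s hs
    exact (hder s hs.1).differentiableAt.differentiableWithinAt
  · rw [interior_Icc]
    intro s hs
    rw [(hder s hs.1).deriv]
    exact deriv_le GF HA HB BF SF hgr hd N.smooth N.sym N.mem h0 h1 hs.1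

end Pool.Agent.H111.Cube
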